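import Pool.Agent.Helper22.HG.H6

/-!
# A holomorphic group all of whose nonzero scalar multiples are hypercyclic, without a common
hypercyclic vector
-/

set_option autoImplicit false

open Filter Topology

namespace Pool.Agent.Results.MP_f7c330_an.NoCommonVector

/-- There is a complex Fréchet space `X` (a complete metrizable locally convex complex topological
vector space) and a holomorphic strongly continuous group `T z`, `z ∈ ℂ`, of continuous linear
operators on `X` such that `a • T z` is hypercyclic for all nonzero complex `a`, `z`, while for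
every vector `y` there is a real number `a ∈ [1/4, 1/2]` such that `y` is not hypercyclic for
`a • T (-1)`. -/
theorem result : ∃ (X : Type) (_ : AddCommGroup X) (_ : Module ℂ X) (_ : UniformSpace X)
    (_ : IsUniformAddGroup X) (_ : ContinuousSMul ℂ X) (_ : LocallyConvexSpace ℝ X)
    (_ : CompleteSpace X) (_ : TopologicalSpace.MetrizableSpace X) (T : ℂ → (X →L[ℂ] X)),
    T 0 = ContinuousLinearMap.id ℂ X ∧
    (∀ z w : ℂ, T (z + w) = (T z).comp (T w)) ∧
    (∀ x : X, Continuous (fun z : ℂ => T z x)) ∧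
    (∀ (x : X) (z : ℂ), ∃ v : X,
      Tendsto (fun h : ℂ => h⁻¹ • (T (z + h) x - T z x)) (𝓝[≠] (0 : ℂ)) (𝓝 v)) ∧
    (∀ a z : ℂ, a ≠ 0 → z ≠ 0 →
      ∃ y : X, Dense (Set.range (fun n : ℕ => (⇑(a • T z))^[n] y))) ∧
    (∀ y : X, ∃ a : ℝ, a ∈ Set.Icc (1 / 4 : ℝ) (1 / 2) ∧
      ¬ Dense (Set.range (fun n : ℕ => (⇑((a : ℂ) • T (-1)))^[n] y))) :=
  ⟨Pool.Agent.Helper22.HG.X, inferInstance, inferInstance, inferInstance, inferInstance,
    inferInstance, Pool.Agent.Helper22.HG.lcs, inferInstance, inferInstance,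
    Pool.Agent.Helper22.HG.T, Pool.Agent.Helper22.HG.T_zero, Pool.Agent.Helper22.HG.T_add,
    Pool.Agent.Helper22.HG.T_cont, Pool.Agent.Helper22.HG.T_quot,
    Pool.Agent.Helper22.HG.hypercyclic, Pool.Agent.Helper22.HG.no_common⟩

end Pool.Agent.Results.MP_f7c330_an.NoCommonVector
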